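import Pool.Agent.TH285.MG.Fam2

/-!
# Margulis' injectivity radius conjecture over fields with small residue degrees

Let `P` be a prime ideal of the number field `K`, for instance a prime number, and `K = ℚ`. All
torsion-free arithmetic groups which are defined over a number field `k ⊇ K` in which the primes
above `P` of residue degree at most `f` account for a positive proportion `1 / B` of the local
degrees (whatever their ramification) form a uniformly discrete family.

`Pool.Agent.H225R3.MargDefs` contains the definitions: `Realization ρ Γ k n S` (a homomorphism `r`
from `Γ` to the `n` by `n` matrices over the ring of integers of `k`, bounded under all embeddings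
outside `S`, such that for `σ` in `S` the eigenvalues of `σ (r γ)` are eigenvalues of `ρ γ`, and such
that only `1` is mapped to a unipotent matrix) and `UniformlyDiscrete` (there is an identity
neighbourhood `U` such that `g U g⁻¹` meets every group of the family in the identity only).

Method: the coefficients of the characteristic polynomial of `r γ` form a point of `P ^ n (k)`; with
`p` the prime number in `P`, the map `A ↦ A ^ p` induces an endomorphism of `P ^ n` of degree `p`
with good, purely inseparable reduction at the primes above `p` (`Pool.Agent.TH285.MG.Forms`), and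
the lower bound for canonical heights of `Pool.Agent.H627.LP.final` applies.
-/

set_option autoImplicit false

open NumberField Module Pool.Agent.H225R3.Marg

namespace Pool.Agent.Results.MP_162bbe_gt.BoundedResidueDegrees

/-- The number field `k` contains `K`, and it has a set `T` of prime ideals above `P`, of residue
degrees at most `f` over `P`, such that the sum over `T` of the products of ramification index and
residue degree is at least `[k : K] / B`. (Over all primes above `P` the sum is `[k : K]`.) -/
def SmallResidueDegrees (K : Type) [Field K] [NumberField K] (P : Ideal (𝓞 K)) (f B : ℕ)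
    (k : Type) [Field k] [NumberField k] : Prop :=
  ∃ (_ : Algebra K k) (T : Finset (Ideal (𝓞 k))),
    (∀ 𝔓 ∈ T, 𝔓.IsPrime ∧ 𝔓.under (𝓞 K) = P ∧ 𝔓.inertiaDeg (𝓞 K) ≤ f) ∧
    finrank K k ≤ B * ∑ 𝔓 ∈ T, 𝔓.ramificationIdx (𝓞 K) * 𝔓.inertiaDeg (𝓞 K)

/-- The torsion-free subgroups `Γ` of `G` which have a realization by matrices of size `n`, with at
most `s` noncompact embeddings, over a number field `k` with `SmallResidueDegrees K P f B k`. -/
def Family (K : Type) [Field K] [NumberField K] (P : Ideal (𝓞 K)) (f B s n : ℕ)
    {G : Type*} [Group G] {M : ℕ} (ρ : G →* Matrix (Fin M) (Fin M) ℂ) : Set (Subgroup G) :=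
  {Γ | (∀ γ ∈ Γ, ∀ N : ℕ, 0 < N → γ ^ N = 1 → γ = 1) ∧
    ∃ (k : Type) (_ : Field k) (_ : NumberField k) (S : Finset (k →+* ℂ))
      (_ : Realization ρ Γ k n S), S.card ≤ s ∧ SmallResidueDegrees K P f B k}

/-- Let `G` be a topological group, `ρ` a continuous finite dimensional complex representation of
`G` (for instance the complexified adjoint representation of a semisimple Lie group), `K` a number
field and `P` a nonzero prime ideal of its ring of integers (containing the prime number `p`). For
all `n`, `s`, `f` and `B` the family of all torsion-free subgroups of `G` that are realized by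
integral matrices of size `n`, with at most `s` noncompact embeddings, over a number field `k`
containing `K` in which the primes above `P` of residue degree at most `f` account for at least the
proportion `1 / B` of the degree, is uniformly discrete. -/
theorem result {G : Type*} [Group G] [TopologicalSpace G] {M : ℕ}
    (ρ : G →* Matrix (Fin M) (Fin M) ℂ) (hρ : Continuous ρ)
    (K : Type) [Field K] [NumberField K] (p : ℕ) (hp : p.Prime) (P : Ideal (𝓞 K))
    (hP : P.IsPrime) (hpP : (p : 𝓞 K) ∈ P) (f B s n : ℕ) :
    UniformlyDiscrete (Family K P f B s n ρ) := by
  obtain ⟨U, hU, h⟩ := Pool.Agent.TH285.MG.uniform_residue K p hp P hP hpP f B s n ρ hρ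
  refine ⟨U, hU, ?_⟩
  rintro Γ ⟨htf, k, i1, i2, S, R, hS, i3, T, hT, hB⟩
  exact h Γ ⟨htf, k, i1, i2, i3, S, R, T, hS, hT, hB⟩

end Pool.Agent.Results.MP_162bbe_gt.BoundedResidueDegrees
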