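import Pool.Agent.H776GM.Desc3

/-!
# The elements of length up to a power of the degree of all arithmetic groups

No condition on the number field `k`, no congruence condition and no condition on the group. For
every group `Γ` with a realization of size `n` over a number field `k` of degree `d` and every
element `γ` of `Γ` whose eigenvalues `l` satisfy `c (1 + |log |l||) ^ 3000 < d`:

* any eigenvalue of `γ` and any eigenvalue of any other such element of `Γ` are multiplicatively
  dependent;
* for some power `γ ^ N` all eigenvalues are roots of polynomials `X ^ 2 - t X + 1` with `t` in the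
  ring of integers of `k`, and `t` has the same image under any two embeddings of `k` in a field of
  small degree over `k`; in particular `t` is fixed by all automorphisms of `k`.
-/

set_option autoImplicit false

namespace Pool.Agent.Results.MP_162bbe_gt.DependentLengths

open NumberField Pool.Agent.H776GM Pool.Agent.H225R3.Marg

theorem result (C n : ℕ) : ∃ c : ℝ, 0 < c ∧
    ∀ {G : Type*} [Group G] {M : ℕ} (ρ : G →* Matrix (Fin M) (Fin M) ℂ) (Γ : Subgroup G)
      (k : Type) [Field k] [NumberField k] (S : Finset (k →+* ℂ)) (R : Realization ρ Γ k n S),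
      S.card ^ 400 ≤ C * Module.finrank ℚ k → ∀ γ : Γ,
      (∀ l : ℂ, IsEig (ρ γ) l → c * (1 + |Real.log ‖l‖|) ^ 3000 < Module.finrank ℚ k) →
      (∀ δ : Γ, (∀ l : ℂ, IsEig (ρ δ) l →
          c * (1 + |Real.log ‖l‖|) ^ 3000 < Module.finrank ℚ k) →
        ∀ (σ : k →+* ℂ) (l m : ℂ), IsEig (conjMat σ (R.r γ)) l → IsEig (conjMat σ (R.r δ)) m →
        ∃ a b : ℤ, (a, b) ≠ (0, 0) ∧ l ^ a * m ^ b = 1) ∧
      ∃ N : ℕ, 0 < N ∧ ∀ (σ : k →+* ℂ) (l : ℂ), IsEig (conjMat σ (R.r γ)) l →
        ∃ t : 𝓞 k, (l ^ N) ^ 2 - σ (t : k) * l ^ N + 1 = 0 ∧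
          ∀ (K : Type) [Field K] [NumberField K] (i i' : k →+* K),
            (S.card * Module.finrank ℚ K) ^ 400 ≤ C * Module.finrank ℚ k ^ 401 →
            i (t : k) = i' (t : k) :=
  long_full 3000 rfl C n

end Pool.Agent.Results.MP_162bbe_gt.DependentLengths
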