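import Pool.Agent.H776GM.Fam2

/-!
# Margulis' injectivity radius conjecture over fields with separated noncompact embeddings

Let `G` be a topological group with a continuous representation `ρ`. The torsion-free subgroups of
`G` with an arithmetic realization of size `n` over a number field `k` are uniformly discrete if
no nonempty set of noncompact embeddings of `k` is stable under all correspondences of small degree
of `k`, in particular if `k` has more automorphisms than noncompact embeddings, or is Galois over a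
field of bounded degree, or has a subfield of small index over which no full fibre consists of
noncompact embeddings. Moreover the eigenvalues of all elements different from `1` grow with the
degree of `k`. There is no congruence condition on the groups.
-/

set_option autoImplicit false

namespace Pool.Agent.Results.MP_162bbe_gt.GaloisFields

open Pool.Agent.H776GM Pool.Agent.H225R3.Marg

theorem result (C n : ℕ) {G : Type*} [Group G] [TopologicalSpace G] {M : ℕ}
    (ρ : G →* Matrix (Fin M) (Fin M) ℂ) (hρ : Continuous ρ) :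
    UniformlyDiscrete (⋃ d, (SeparatedFamily C n d ρ ∪ ManyAutomorphismsFamily C n d ρ ∪
      NoFullFibreFamily C n d ρ)) ∧
    ∃ c : ℝ, ∀ d : ℕ, ∀ Γ ∈ SeparatedFamily C n d ρ ∪ ManyAutomorphismsFamily C n d ρ ∪
      NoFullFibreFamily C n d ρ, ∀ γ ∈ Γ, γ ≠ 1 →
      ∃ l : ℂ, IsEig (ρ γ) l ∧ (d : ℝ) ≤ c * (1 + |Real.log ‖l‖|) ^ 3000 := by
  have h1 := uniform_sep C n ρ hρ
  have h2 := uniform_aut2 C n ρ hρ
  have h3 : UniformlyDiscrete (⋃ d, NoFullFibreFamily C n d ρ) := by
    obtain ⟨U, hU, h⟩ := h1
    refine ⟨U, hU, fun Γ hΓ => h Γ ?_⟩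
    rw [Set.mem_iUnion] at hΓ ⊢
    obtain ⟨d, hd⟩ := hΓ
    exact ⟨d, sub_sep ρ Γ hd⟩
  refine ⟨disc_union _ _ (disc_union _ _ h1 h2) h3, ?_⟩
  have g1 := grow_sep 3000 rfl C n ρ
  have g2 := grow_aut 3000 rfl C n ρ
  have g3 : Grows ρ 3000 fun d => NoFullFibreFamily C n d ρ := by
    obtain ⟨c, hc⟩ := g1
    exact ⟨c, fun d Γ hΓ => hc d Γ (sub_sep ρ Γ hΓ)⟩
  exact grow_union ρ 3000 _ _ (grow_union ρ 3000 _ _ g1 g2) g3

end Pool.Agent.Results.MP_162bbe_gt.GaloisFields
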