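import Pool.Agent.H776GM.Long2

/-!
# Margulis' injectivity radius conjecture for division algebras of odd degree

No condition on the number field `k` and no congruence condition. The torsion-free arithmetic groups
all of whose elements `γ ≠ 1` have an eigenvalue of degree at least `3` over `k`, and those of the
norm one elements of division algebras of odd dimension over `k`, are uniformly discrete, and the
eigenvalues of all their elements different from `1` grow with the degree of `k`.

Proof: an element of such a group which is not `1` has two multiplicatively independent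
eigenvalues; by a two-variable version of Dobrowolski's method it cannot be conjugate to an element
of a small neighbourhood of the identity, and its eigenvalues cannot all be small compared to a
power of the degree.
-/

set_option autoImplicit false

namespace Pool.Agent.Results.MP_162bbe_gt.OddDivisionAlgebras

open Pool.Agent.H776GM Pool.Agent.H225R3.Marg

theorem result (C n : ℕ) {G : Type*} [Group G] [TopologicalSpace G] {M : ℕ}
    (ρ : G →* Matrix (Fin M) (Fin M) ℂ) (hρ : Continuous ρ) :
    UniformlyDiscrete (⋃ d, (DegreeThreeFamilyAt C n d ρ ∪ OddDivisionFamilyAt C n d ρ)) ∧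
    ∃ c : ℝ, ∀ d : ℕ, ∀ Γ ∈ DegreeThreeFamilyAt C n d ρ ∪ OddDivisionFamilyAt C n d ρ,
      ∀ γ ∈ Γ, γ ≠ 1 → ∃ l : ℂ, IsEig (ρ γ) l ∧ (d : ℝ) ≤ c * (1 + |Real.log ‖l‖|) ^ 3000 :=
  ⟨disc_union _ _ (disc_three C n ρ hρ) (disc_odd C n ρ hρ),
    grow_union ρ 3000 _ _ (grow_three 3000 rfl C n ρ) (grow_odd 3000 rfl C n ρ)⟩

end Pool.Agent.Results.MP_162bbe_gt.OddDivisionAlgebras
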